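import Mathlib

set_option autoImplicit false

namespace Pool.Agent.H.MP_4cc90a_co

/-- The atoms of a lattice. -/
abbrev At (L : Type) [Lattice L] [BoundedOrder L] : Type := {s : L // IsAtom s}

/-- `CW c x z w`: `w` is the word of colors of some saturated chain from `x` to `z`. -/
inductive CW {L A : Type} [PartialOrder L] (c : L → L → A) : L → L → FreeMonoid A → Prop
  | refl (x : L) : CW c x x 1
  | step {x y z : L} {w : FreeMonoid A} : x ⋖ y → CW c y z w → CW c x z (FreeMonoid.of (c x y) * w)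

/-- The defining relations: for two atoms `s, t`, the color words of two saturated chains
from the bottom to `s ⊔ t`, one through `s` and one through `t`. -/
def Rel {L : Type} [Lattice L] [BoundedOrder L] (c : L → L → At L) (u v : FreeMonoid (At L)) :
    Prop :=
  ∃ (s t : At L) (w w' : FreeMonoid (At L)), CW c s.1 (s.1 ⊔ t.1) w ∧ CW c t.1 (s.1 ⊔ t.1) w' ∧
    u = FreeMonoid.of (c ⊥ s.1) * w ∧ v = FreeMonoid.of (c ⊥ t.1) * w'

/-- `L` is graded by `rk`, its top is the join of its atoms, and `c` (only its values on covers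
matter) is a pre-upho coloring. If `J` holds, the embeddings must moreover preserve joins. -/
structure PreUpho {L : Type} [Lattice L] [BoundedOrder L] (J : Prop) (rk : L → ℕ)
    (c : L → L → At L) : Prop where
  rk_bot : rk ⊥ = 0
  rk_cov : ∀ x y : L, x ⋖ y → rk y = rk x + 1
  top : IsLUB {s : L | IsAtom s} ⊤
  c_bot : ∀ s : At L, c ⊥ s.1 = s
  emb : ∀ x : L, x ≠ ⊥ → x ≠ ⊤ → ∀ z : L, IsLUB {y | x ⋖ y} z → ∃ φ : Set.Icc x z ↪o L,
    (∀ u, rk (φ u) + rk x = rk u.1) ∧
    (∀ u v : Set.Icc x z, u.1 ⋖ v.1 → φ u ⋖ φ v ∧ c (φ u) (φ v) = c u.1 v.1) ∧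
    (J → ∀ u v, φ (u ⊔ v) = φ u ⊔ φ v)

/-- Every two elements have a greatest common left divisor (`a ∣ b` means `∃ c, b = a * c`). -/
def HasGcd (M : Type) [Monoid M] : Prop :=
  ∀ u v : M, ∃ d, d ∣ u ∧ d ∣ v ∧ ∀ d', d' ∣ u → d' ∣ v → d' ∣ d

end Pool.Agent.H.MP_4cc90a_co
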