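import Pool.Agent.H.MP_4cc90a_co.Defs

set_option autoImplicit false

namespace Pool.Agent.H.MP_4cc90a_co

open PresentedMonoid

variable {L : Type} [Lattice L] [BoundedOrder L] {c : L → L → At L} {rk : L → ℕ}

lemma CW.le {x z : L} {w : FreeMonoid (At L)} (h : CW c x z w) : x ≤ z := by
  induction h with
  | refl => exact le_rfl
  | step h _ ih => exact h.le.trans ih

lemma CW.trans {x y z : L} {w w' : FreeMonoid (At L)} (h : CW c x y w) (k : CW c y z w') :
    CW c x z (w * w') := by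
  induction h with
  | refl => simpa
  | step h _ ih => rw [mul_assoc]; exact .step h (ih k)

lemma CW.len {J : Prop} (H : PreUpho J rk c) {x z : L} {w : FreeMonoid (At L)} (h : CW c x z w) :
    rk z = rk x + w.length := by
  induction h with
  | refl => simp
  | step h _ ih => rw [ih, H.rk_cov _ _ h]; simp; ring

lemma exists_CW [Finite L] (c : L → L → At L) {x z : L} (h : x ≤ z) : ∃ w, CW c x z w := by
  induction x using WellFoundedGT.induction with
  | ind x ih =>
    rcases h.eq_or_lt with rfl | h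
    · exact ⟨1, .refl _⟩
    · obtain ⟨y, h1, h2⟩ := exists_covBy_le_of_lt h
      obtain ⟨w, hw⟩ := ih y h1.lt h2
      exact ⟨_, .step h1 hw⟩

lemma CW.eq_one {J : Prop} (H : PreUpho J rk c) {x : L} {w : FreeMonoid (At L)} (h : CW c x x w) :
    w = 1 := FreeMonoid.length_eq_zero.1 (by have := h.len H; omega)

lemma rk_eq [Finite L] {J : Prop} (H : PreUpho J rk c) {x z : L} (h : x ≤ z) (e : rk z ≤ rk x) :
    x = z := by
  obtain ⟨w, hw⟩ := exists_CW c h
  have := hw.len H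
  cases hw with
  | refl => rfl
  | step h _ => simp at this; omega

lemma transfer [Finite L] (H : PreUpho True rk c) {x y y' : L} (h : x ⋖ y) (h' : x ⋖ y')
    {w : FreeMonoid (At L)} (hw : CW c y (y ⊔ y') w) : CW c (c x y).1 ((c x y).1 ⊔ (c x y').1) w := by
  by_cases hb : x = ⊥
  · subst hb
    have e := H.c_bot ⟨y, bot_covBy_iff.1 h⟩
    have e' := H.c_bot ⟨y', bot_covBy_iff.1 h'⟩
    simp only at e e'
    rw [e, e']
    exact hw
  obtain ⟨z, hz⟩ : ∃ z, IsLUB {y | x ⋖ y} z := by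
    classical
    have := Fintype.ofFinite L
    refine ⟨(Finset.univ.filter (x ⋖ ·)).sup id, fun y hy => Finset.le_sup (f := id) (by simpa using hy),
      fun b hb => Finset.sup_le fun y hy => hb (by simpa using hy)⟩
  obtain ⟨φ, h1, h2, h3⟩ := H.emb x hb h.lt.ne_top z hz
  have hx : x ∈ Set.Icc x z := ⟨le_rfl, h.le.trans (hz.1 h)⟩
  have hφ : φ ⟨x, hx⟩ = ⊥ := (rk_eq H bot_le (by have := h1 ⟨x, hx⟩; simp only at this; omega)).symm
  have at' : ∀ y (h : x ⋖ y), φ ⟨y, h.le, hz.1 h⟩ = (c x y).1 := fun y h => by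
    obtain ⟨j1, j2⟩ := h2 ⟨x, hx⟩ ⟨y, h.le, hz.1 h⟩ h
    rw [hφ] at j1 j2
    rw [← j2, H.c_bot ⟨_, bot_covBy_iff.1 j1⟩]
  have key : ∀ {a b : L} {w : FreeMonoid (At L)}, CW c a b w → ∀ (ha : a ∈ Set.Icc x z)
      (hb : b ∈ Set.Icc x z), CW c (φ ⟨a, ha⟩) (φ ⟨b, hb⟩) w := by
    intro a b w k
    induction k with
    | refl => exact fun _ _ => .refl _
    | @step a a' b w k1 k2 ih =>
      intro ha hb
      have ha' : a' ∈ Set.Icc x z := ⟨ha.1.trans k1.le, k2.le.trans hb.2⟩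
      obtain ⟨j1, j2⟩ := h2 ⟨a, ha⟩ ⟨a', ha'⟩ k1
      rw [← j2]
      exact .step j1 (ih ha' hb)
  have := key hw ⟨h.le, hz.1 h⟩ ⟨h.le.trans le_sup_left, sup_le (hz.1 h) (hz.1 h')⟩
  rw [← at' y h, ← at' y' h', ← h3 trivial]
  exact this

lemma CW.unique [Finite L] (H : PreUpho True rk c) (n : ℕ) : ∀ {x z : L} {w w' : FreeMonoid (At L)},
    w.length = n → CW c x z w → CW c x z w' → mk (Rel c) w = mk (Rel c) w' := by
  induction n with
  | zero =>
    intro x z w w' e h h'
    have := h.len H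
    have := h'.len H
    rw [FreeMonoid.length_eq_zero.1 e, FreeMonoid.length_eq_zero.1 (show w'.length = 0 by omega)]
  | succ n ih =>
    intro x z w w' e h h'
    cases h with
    | refl => simp at e
    | @step _ y _ w₁ h1 h2 =>
      cases h' with
      | refl => exact absurd h2.le h1.lt.not_ge
      | @step _ y' _ w₂ k1 k2 =>
        obtain ⟨v, hv⟩ := exists_CW c (le_sup_left : y ≤ y ⊔ y')
        obtain ⟨v', hv'⟩ := exists_CW c (le_sup_right : y' ≤ y ⊔ y')
        obtain ⟨u, hu⟩ := exists_CW c (sup_le h2.le k2.le)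
        have l1 := h2.len H
        have l2 := k2.len H
        have l3 := H.rk_cov _ _ h1
        have l4 := H.rk_cov _ _ k1
        simp at e
        have hrel : mk (Rel c) (FreeMonoid.of (c x y) * v) =
            mk (Rel c) (FreeMonoid.of (c x y') * v') := by
          refine mk_eq_mk_of_rel ⟨c x y, c x y', v, v', transfer H h1 k1 hv, ?_, by rw [H.c_bot],
            by rw [H.c_bot]⟩
          rw [sup_comm] at hv' ⊢
          exact transfer H k1 h1 hv'
        rw [map_mul, map_mul] at hrel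
        rw [map_mul, map_mul, ih (by omega) h2 (hv.trans hu), ih (by omega) k2 (hv'.trans hu),
          map_mul, map_mul, ← mul_assoc, ← mul_assoc, hrel]

open Classical in
noncomputable def W [Finite L] (c : L → L → At L) (x y : L) : PresentedMonoid (Rel c) :=
  if h : x ≤ y then mk (Rel c) (exists_CW c h).choose else 1

lemma W_eq [Finite L] (H : PreUpho True rk c) {x y : L} {w : FreeMonoid (At L)} (h : CW c x y w) :
    W c x y = mk (Rel c) w := by
  rw [W, dif_pos h.le]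
  exact CW.unique H _ rfl (exists_CW c h.le).choose_spec h

lemma W_self [Finite L] (H : PreUpho True rk c) (x : L) : W c x x = 1 := W_eq H (.refl x)

lemma W_mul [Finite L] (H : PreUpho True rk c) {x y z : L} (h : x ≤ y) (k : y ≤ z) :
    W c x y * W c y z = W c x z := by
  obtain ⟨u, hu⟩ := exists_CW c h
  obtain ⟨v, hv⟩ := exists_CW c k
  rw [W_eq H hu, W_eq H hv, W_eq H (hu.trans hv), map_mul]

lemma W_cov [Finite L] (H : PreUpho True rk c) {x y : L} (h : x ⋖ y) :
    W c x y = of (Rel c) (c x y) := by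
  rw [W_eq H (.step h (.refl y)), mul_one]; rfl

lemma W_tr [Finite L] (H : PreUpho True rk c) {x y y' : L} (h : x ⋖ y) (h' : x ⋖ y') :
    W c (c x y).1 ((c x y).1 ⊔ (c x y').1) = W c y (y ⊔ y') := by
  obtain ⟨v, hv⟩ := exists_CW c (le_sup_left : y ≤ y ⊔ y')
  rw [W_eq H hv, W_eq H (transfer H h h' hv)]

lemma con_len {J : Prop} (H : PreUpho J rk c) {u v : FreeMonoid (At L)} (h : conGen (Rel c) u v) :
    u.length = v.length := by
  induction h with
  | of u v h =>
    obtain ⟨s, t, w, w', h1, h2, rfl, rfl⟩ := h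
    have := h1.len H
    have := h2.len H
    have := H.rk_cov _ _ (bot_covBy_iff.2 s.2)
    have := H.rk_cov _ _ (bot_covBy_iff.2 t.2)
    simp; omega
  | refl => rfl
  | symm _ ih => exact ih.symm
  | trans _ _ i j => exact i.trans j
  | mul _ _ i j => simp [i, j]

def ell {J : Prop} (H : PreUpho J rk c) : PresentedMonoid (Rel c) → ℕ :=
  Quotient.lift FreeMonoid.length fun _ _ h => con_len H h

lemma ell_mk {J : Prop} (H : PreUpho J rk c) (w : FreeMonoid (At L)) :
    ell H (mk (Rel c) w) = w.length := rfl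

lemma ell_mul {J : Prop} (H : PreUpho J rk c) (a b : PresentedMonoid (Rel c)) :
    ell H (a * b) = ell H a + ell H b := by
  induction a with | _ a
  induction b with | _ b
  rw [← map_mul, ell_mk, ell_mk, ell_mk, FreeMonoid.length_mul]

lemma ell_of {J : Prop} (H : PreUpho J rk c) (s : At L) : ell H (of (Rel c) s) = 1 := rfl

lemma one_or (a : PresentedMonoid (Rel c)) : a = 1 ∨ ∃ s b, a = of (Rel c) s * b := by
  induction a with | _ a
  induction a using FreeMonoid.recOn with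
  | one => exact Or.inl rfl
  | of_mul s b => exact Or.inr ⟨s, mk _ b, rfl⟩

def ClA [Finite L] (H : PreUpho True rk c) (n : ℕ) : Prop :=
  ∀ (s t : At L) (a b : PresentedMonoid (Rel c)), ell H a < n → of (Rel c) s * a = of (Rel c) t * b →
    ∃ e, a = W c s.1 (s.1 ⊔ t.1) * e ∧ b = W c t.1 (s.1 ⊔ t.1) * e

def ClB [Finite L] (H : PreUpho True rk c) (n : ℕ) : Prop :=
  ∀ (x y y' : L) (a b : PresentedMonoid (Rel c)), x ≤ y → x ≤ y' → ell H (W c x y * a) < n →
    W c x y * a = W c x y' * b → ∃ e, a = W c y (y ⊔ y') * e ∧ b = W c y' (y ⊔ y') * e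

lemma stepB [Finite L] (H : PreUpho True rk c) (n : ℕ) (hA : ClA H n) (hB : ClB H n) :
    ClB H (n + 1) := by
  intro x y y' a b h h' hl e
  rcases h.eq_or_lt with rfl | h
  · refine ⟨b, ?_, by rw [sup_eq_right.2 h', W_self H, one_mul]⟩
    rw [sup_eq_right.2 h', ← e, W_self H, one_mul]
  rcases h'.eq_or_lt with rfl | h'
  · refine ⟨a, by rw [sup_eq_left.2 h.le, W_self H, one_mul], ?_⟩
    rw [sup_eq_left.2 h.le, e, W_self H, one_mul]
  obtain ⟨p, p1, p2⟩ := exists_covBy_le_of_lt h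
  obtain ⟨q, q1, q2⟩ := exists_covBy_le_of_lt h'
  rw [← W_mul H p1.le p2, W_cov H p1, mul_assoc] at e hl
  rw [← W_mul H q1.le q2, W_cov H q1, mul_assoc] at e
  have hl' := hl
  rw [e] at hl'
  rw [ell_mul, ell_of] at hl hl'
  obtain ⟨e1, a1, b1⟩ := hA _ _ _ _ (by omega) e
  rw [W_tr H p1 q1] at a1
  rw [sup_comm, W_tr H q1 p1, sup_comm] at b1
  obtain ⟨e2, a2, b2⟩ := hB p y (p ⊔ q) a e1 p2 le_sup_left (by omega) a1
  obtain ⟨e3, a3, b3⟩ := hB q y' (p ⊔ q) b e1 q2 le_sup_right (by omega) b1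
  obtain ⟨e4, a4, b4⟩ := hB (p ⊔ q) _ _ e2 e3 le_sup_right le_sup_right
    (by rw [← b2]; rw [a1, ell_mul] at hl; omega) (b2.symm.trans b3)
  have ej : y ⊔ (p ⊔ q) ⊔ (y' ⊔ (p ⊔ q)) = y ⊔ y' := by
    have : p ⊔ q ≤ y ⊔ y' := sup_le_sup p2 q2
    apply le_antisymm (sup_le (sup_le le_sup_left this) (sup_le le_sup_right this))
    exact sup_le_sup le_sup_left le_sup_left
  refine ⟨e4, ?_, ?_⟩
  · rw [a2, a4, ← mul_assoc, W_mul H le_sup_left le_sup_left, ej]
  · rw [a3, b4, ← mul_assoc, W_mul H le_sup_left le_sup_right, ej]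

lemma stepA [Finite L] (H : PreUpho True rk c) (n : ℕ) (hB : ClB H n) : ClA H n := by
  have key : ∀ u v : FreeMonoid (At L), conGen (Rel c) u v → u.length ≤ n → ∀ s a t b,
      u = FreeMonoid.of s * a → v = FreeMonoid.of t * b →
      ∃ e, mk (Rel c) a = W c s.1 (s.1 ⊔ t.1) * e ∧ mk (Rel c) b = W c t.1 (s.1 ⊔ t.1) * e := by
    intro u v h
    have inj : ∀ {s t : At L} {a b : FreeMonoid (At L)},
        FreeMonoid.of s * a = FreeMonoid.of t * b → s = t ∧ a = b := fun h =>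
      List.cons_eq_cons.1 (congrArg FreeMonoid.toList h)
    induction h with
    | of u v h =>
      obtain ⟨s', t', w, w', h1, h2, rfl, rfl⟩ := h
      intro _ s a t b e e'
      rw [H.c_bot] at e e'
      obtain ⟨rfl, rfl⟩ := inj e
      obtain ⟨rfl, rfl⟩ := inj e'
      exact ⟨1, by rw [W_eq H h1, mul_one], by rw [W_eq H h2, mul_one]⟩
    | refl u =>
      rintro _ s a t b rfl e
      obtain ⟨rfl, rfl⟩ := inj e
      exact ⟨_, by rw [sup_idem, W_self H, one_mul], by rw [sup_idem, W_self H, one_mul]⟩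
    | symm h ih =>
      intro hl s a t b e e'
      obtain ⟨e, h1, h2⟩ := ih (con_len H h ▸ hl) t b s a e' e
      rw [sup_comm] at h1 h2
      exact ⟨e, h2, h1⟩
    | @trans u m v h k ih ik =>
      rintro hl s a t b rfl rfl
      have l1 := con_len H h
      induction m using FreeMonoid.recOn with
      | one => simp at l1
      | of_mul r m =>
        obtain ⟨e1, a1, b1⟩ := ih hl s a r m rfl rfl
        obtain ⟨e2, a2, b2⟩ := ik (l1 ▸ hl) r m t b rfl rfl
        obtain ⟨e3, a3, b3⟩ := hB r.1 _ _ e1 e2 le_sup_right le_sup_left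
          (by rw [← b1, ell_mk]; simp at l1 hl; omega) (b1.symm.trans a2)
        have j : s.1 ⊔ t.1 ≤ s.1 ⊔ r.1 ⊔ (r.1 ⊔ t.1) := sup_le_sup le_sup_left le_sup_right
        refine ⟨W c (s.1 ⊔ t.1) (s.1 ⊔ r.1 ⊔ (r.1 ⊔ t.1)) * e3, ?_, ?_⟩
        · rw [a1, a3, ← mul_assoc, ← mul_assoc, W_mul H le_sup_left le_sup_left,
            W_mul H le_sup_left j]
        · rw [b2, b3, ← mul_assoc, ← mul_assoc, W_mul H le_sup_right le_sup_right,
            W_mul H le_sup_right j]
    | @mul u v u' v' h k ih ik =>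
      intro hl s a t b e e'
      have l1 := con_len H h
      rw [FreeMonoid.length_mul] at hl
      induction u using FreeMonoid.recOn with
      | one =>
        rw [FreeMonoid.length_eq_zero.1 l1.symm, one_mul] at e'
        exact ik (by omega) s a t b (by simpa using e) e'
      | of_mul s' a' =>
        induction v using FreeMonoid.recOn with
        | one => simp at l1
        | of_mul t' b' =>
          rw [mul_assoc] at e e'
          obtain ⟨rfl, rfl⟩ := inj e
          obtain ⟨rfl, rfl⟩ := inj e'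
          obtain ⟨e, h1, h2⟩ := ih (by omega) _ _ _ _ rfl rfl
          refine ⟨e * mk _ u', by rw [map_mul, h1, mul_assoc], ?_⟩
          rw [map_mul, h2, mul_assoc, mk_eq_mk_iff.2 k]
  intro s t a b hl e
  induction a with | _ a
  induction b with | _ b
  exact key (FreeMonoid.of s * a) (FreeMonoid.of t * b) (mk_eq_mk_iff.1 e)
    (by rw [ell_mk] at hl; simp; omega) s a t b rfl rfl

lemma clB [Finite L] (H : PreUpho True rk c) (n : ℕ) : ClB H n := by
  induction n with
  | zero => exact fun _ _ _ _ _ _ _ h => absurd h (Nat.not_lt_zero _)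
  | succ n ih => exact stepB H n (stepA H n ih) ih

lemma clA [Finite L] (H : PreUpho True rk c) {s t : At L} {a b : PresentedMonoid (Rel c)}
    (e : of (Rel c) s * a = of (Rel c) t * b) :
    ∃ e, a = W c s.1 (s.1 ⊔ t.1) * e ∧ b = W c t.1 (s.1 ⊔ t.1) * e :=
  stepA H _ (clB H _) s t a b (Nat.lt_succ_self _) e

lemma cancel [Finite L] (H : PreUpho True rk c) (a u v : PresentedMonoid (Rel c))
    (e : a * u = a * v) : u = v := by
  induction a with | _ a
  induction a using FreeMonoid.recOn with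
  | one => simpa using e
  | of_mul s a ih =>
    rw [map_mul, mul_assoc, mul_assoc] at e
    obtain ⟨e, h1, h2⟩ := clA H (s := s) (t := s) e
    exact ih (h1.trans h2.symm)

lemma gcd_aux [Finite L] (H : PreUpho True rk c) (n : ℕ) : ∀ u v : PresentedMonoid (Rel c),
    ell H u < n → ∃ d, d ∣ u ∧ d ∣ v ∧ ∀ d', d' ∣ u → d' ∣ v → d' ∣ d := by
  induction n with
  | zero => exact fun _ _ h => absurd h (Nat.not_lt_zero _)
  | succ n ih =>
    intro u v hl
    by_cases h : ∃ s, of (Rel c) s ∣ u ∧ of (Rel c) s ∣ v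
    · obtain ⟨s, ⟨u', hu⟩, ⟨v', hv⟩⟩ := h
      obtain ⟨g, ⟨g1, hg1⟩, ⟨g2, hg2⟩, hg⟩ := ih u' v' (by rw [hu, ell_mul, ell_of] at hl; omega)
      refine ⟨of _ s * g, ⟨g1, by rw [hu, hg1, mul_assoc]⟩, ⟨g2, by rw [hv, hg2, mul_assoc]⟩, ?_⟩
      rintro d ⟨d1, hd1⟩ ⟨d2, hd2⟩
      rcases one_or d with rfl | ⟨t, d', rfl⟩
      · exact one_dvd _
      rw [mul_assoc] at hd1 hd2
      obtain ⟨eu, a1, b1⟩ := clA H (hu.symm.trans hd1)
      obtain ⟨ev, a2, b2⟩ := clA H (hv.symm.trans hd2)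
      obtain ⟨g', ⟨k1, hk1⟩, ⟨k2, hk2⟩, hg'⟩ := ih (d' * d1) (d' * d2)
        (by rw [hd1, ell_mul, ell_of] at hl; omega)
      obtain ⟨x, hx⟩ := hg' _ ⟨eu, b1⟩ ⟨ev, b2⟩
      obtain ⟨y, hy⟩ := hg' d' ⟨d1, rfl⟩ ⟨d2, rfl⟩
      have c1 : eu = x * k1 := cancel H _ _ _ (by rw [← b1, hk1, hx, mul_assoc])
      have c2 : ev = x * k2 := cancel H _ _ _ (by rw [← b2, hk2, hx, mul_assoc])
      obtain ⟨z, hz⟩ := hg (W c s.1 (s.1 ⊔ t.1) * x) ⟨k1, by rw [a1, c1, mul_assoc]⟩
        ⟨k2, by rw [a2, c2, mul_assoc]⟩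
      have e : of (Rel c) s * W c s.1 (s.1 ⊔ t.1) = of (Rel c) t * W c t.1 (s.1 ⊔ t.1) := by
        have i := W_cov H (bot_covBy_iff.2 s.2)
        have j := W_cov H (bot_covBy_iff.2 t.2)
        rw [H.c_bot] at i j
        rw [← i, ← j, W_mul H bot_le le_sup_left, W_mul H bot_le le_sup_right]
      refine ⟨y * z, ?_⟩
      rw [hz, mul_assoc _ x, ← mul_assoc, e, mul_assoc, ← mul_assoc _ x, ← hx, hy]
      simp only [mul_assoc]
    · refine ⟨1, one_dvd _, one_dvd _, fun d h1 h2 => ?_⟩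
      rcases one_or d with rfl | ⟨t, d', rfl⟩
      · rfl
      · exact absurd ⟨t, (dvd_mul_right _ _).trans h1, (dvd_mul_right _ _).trans h2⟩ h

lemma pos_gcd [Finite L] (H : PreUpho True rk c) : HasGcd (PresentedMonoid (Rel c)) :=
  fun u v => gcd_aux H _ u v (Nat.lt_succ_self _)

lemma pos_emb [Finite L] (H : PreUpho True rk c) : ∃ ψ : L → PresentedMonoid (Rel c),
    (∀ x y, ψ x ∣ ψ y ↔ x ≤ y) ∧ ∀ x w, mk (Rel c) w = ψ x → w.length = rk x := by
  have hl : ∀ x y : L, x ≤ y → rk x + ell H (W c x y) = rk y := fun x y h => by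
    obtain ⟨w, hw⟩ := exists_CW c h
    rw [W_eq H hw, ell_mk, hw.len H]
  refine ⟨W c ⊥, fun x y => ⟨?_, fun h => ⟨W c x y, (W_mul H bot_le h).symm⟩⟩, fun x w e => ?_⟩
  · rintro ⟨a, ha⟩
    obtain ⟨e, h1, -⟩ := clB H _ ⊥ y x 1 a bot_le bot_le (Nat.lt_succ_self _) (by rw [mul_one, ha])
    have h2 := congrArg (ell H) h1
    rw [ell_mul, show ell H 1 = 0 from rfl] at h2
    have h3 := hl y (y ⊔ x) le_sup_left
    exact sup_eq_left.1 (rk_eq H le_sup_left (by omega)).symm
  · have := hl ⊥ x bot_le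
    rw [← e, ell_mk, H.rk_bot] at this
    omega

end Pool.Agent.H.MP_4cc90a_co
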